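import Pool.Agent.H43.AG3.Final

/-!
# MP_e9c5ae_lc: Q1 for words with trees with bounded blocks of nullable variables
-/

set_option autoImplicit false

namespace Pool.Agent.Results.MP_e9c5ae_lc.BoundedBlocks

open Pool.Agent.H43.AG Pool.Agent.H43.AG2 Pool.Agent.H43.AG3

theorem result (V T : Type) [Finite V] [Finite T] (G : Grammar V T) (hG : ContextFree G)
    (N : Set V)
    (hN : ∀ (A : V) (r : Form V T), A ∉ N → ([Sum.inl A], r) ∈ G.P → ∃ z ∈ r, Out N z) :
    (∀ m : ℕ, ∃ (V' : Type) (_ : Finite V') (G' : Grammar V' T),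
      LmShape G' ∧ NonContracting G' ∧
        Lang G' = {w | w ≠ [] ∧ TreeB G N m w [Sum.inl G.S]}) ∧
    (∀ (m : ℕ) (w : List T), TreeB G N m w [Sum.inl G.S] →
      TreeB G N (m + 1) w [Sum.inl G.S]) ∧
    (∀ w : List T, w ∈ Lang G ↔ ∃ m, TreeB G N m w [Sum.inl G.S]) :=
  ⟨blocks_thm G hG N hN, fun m w h => treeB_mono G N (Nat.le_succ m) w _ h,
    fun w => lang_iff G N w⟩

end Pool.Agent.Results.MP_e9c5ae_lc.BoundedBlocks
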