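import Pool.Agent.H43.AG.Count

/-!
# MP_e9c5ae_lc: leftmost derivation trees of linear depth for alternating context-sensitive grammars
-/

set_option autoImplicit false

namespace Pool.Agent.Results.MP_e9c5ae_lc.LinearDepth

open Pool.Agent.H43.AG

theorem result (V T : Type) [Fintype V] [Fintype T] (G : Grammar V T) (hL : LmShape G)
    (hN : NonContracting G) (D : ℕ) (hD : ∀ p ∈ G.P, p.1.length ≤ D) (w : List T) :
    w ∈ Lang G ↔
      TreeD G w (3 * (Fintype.card V + Fintype.card T + 1) ^ D * w.length) [Sum.inl G.S] :=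
  ⟨tree_bound G hL hN D hD w, treeD_tree G w _ _⟩

end Pool.Agent.Results.MP_e9c5ae_lc.LinearDepth
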