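import Mathlib
import Pool.Agent.H97.LM.Pad

/-!
# Leftmost alternating context-free grammars against leftmost alternating context-sensitive grammars

The inclusion asked for holds up to polynomial padding: for every alternating context-free grammar `G` (productions with empty
right-hand side allowed) there is an alternating context-sensitive grammar `G'` whose productions have the leftmost shape
`A α → β`, over the terminals of `G` and one new terminal `#`, and a constant `C` such that for every word `w` and every
`N ≥ C (|w| + 1)^2` the grammar `G` generates `w` in leftmost mode if and only if `G'` generates the word `(w#)^N` in leftmost
mode.

The proof: along the stack of a leftmost derivation a variable with a null strategy can only enlarge the set of positions from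
which the rest of the form generates the rest of `w`, and every other variable lowers the largest element of this set; so
membership has certificates of depth at most `|V| (n+1) (n+4)`, and `G'` plays the certificate game on its stack.
-/

set_option autoImplicit false

namespace Pool.Agent.Results.MP_e9c5ae_lc.PaddedInclusion

open Pool.Agent.H97.LM

theorem result {V T : Type} [Finite V] [Finite T] (G : ACFG V T) :
    ∃ (V' : Type) (_ : Finite V') (G' : APSG V' (Option T)), G'.Mono ∧
      ∃ C : ℕ, ∀ (w : List T) (N : ℕ), C * (w.length + 1) ^ 2 ≤ N →
        (Der G w [Sum.inl G.start] ↔
          DerL G' (List.replicate N (w.map some ++ [none])).flatten [Sum.inl G'.start]) :=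
  padded G

end Pool.Agent.Results.MP_e9c5ae_lc.PaddedInclusion
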