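import Pool.Agent.H71.AG.Low

/-!
# MP_e9c5ae_lc: leftmost alternating context-free grammars, the least fixed point is reached after
quadratically many rounds, and this order is optimal
-/

set_option autoImplicit false

namespace Pool.Agent.Results.MP_e9c5ae_lc.PolynomialRounds

open Pool.Agent.H43.AG Pool.Agent.H71.AG

theorem result :
    (∀ (V T : Type) [Fintype V] (G : Grammar V T), ContextFree G →
      (∀ w : List T,
        w ∈ Lang G ↔
          w ∈ Stage G (2 * Fintype.card V * ((w.length + 1) * (w.length + 4))) G.S {[]}) ∧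
      (∀ (f : Form V T) (w : List T),
        Pool.Agent.H43.AG.Tree G w f ↔
          w ∈ ext (Stage G (2 * Fintype.card V * ((w.length + 1) * (w.length + 4)))) f {[]}) ∧
      (∀ (w u : List T) (A : V) (R : Set (List T)) (t : ℕ), u <:+ w →
        2 * Fintype.card V * ((w.length + 1) * (w.length + 4)) ≤ t →
          (u ∈ Stage G t A R ↔
            u ∈ Stage G (2 * Fintype.card V * ((w.length + 1) * (w.length + 4))) A R))) ∧
    (∃ (V T : Type) (_ : Fintype V) (_ : Finite T) (G : Grammar V T), ContextFree G ∧
      ∀ m : ℕ, ∃ w : List T, w.length = 3 * m + 1 ∧ w ∈ Lang G ∧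
        ∀ t, t ≤ m * (m + 2) → w ∉ Stage G t G.S {[]}) :=
  ⟨fun V T _ G hG => ⟨fun w => tree_iff_stage G hG [Sum.inl G.S] w,
    fun f w => tree_iff_stage G hG f w,
    fun w u A R t hu ht => stage_stationary G hG w u A R t hu ht⟩, optimal⟩

end Pool.Agent.Results.MP_e9c5ae_lc.PolynomialRounds
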